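import Pool.Agent.R547.SP.Main

set_option autoImplicit false

/-!
# Integer weights for shortest-paths preserving reweightings of DAGs must be exponentially large

For every `K` there is a weighted DAG with `11 K + 14` vertices, in which no directed path has more
than two edges, such that every shortest-paths preserving reweighting with positive integer weights
has an edge of weight at least `2 ^ (K - 1)`.
-/

namespace Pool.Agent.Results.MP_546b07_lc.IntegerWeights

open Pool.Agent.R547.SP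

/-- Q1 is false. (1) For every `K` there is a DAG with `11 K + 14` vertices and positive real
weights, without directed paths with three edges, such that every shortest-paths preserving
reweighting with positive integer weights has an edge of weight at least `2 ^ K / 2`.
(2) For every real `c` there is a weighted DAG with `n ≥ 2` vertices for which every such
reweighting has an edge of weight larger than `n ^ c`. -/
theorem result :
    (∀ K : ℕ, ∃ (V : Type) (_ : Fintype V) (E : V → V → Prop) (w : V → V → ℝ),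
      Fintype.card V = 11 * K + 14 ∧ IsDAG E ∧ PosWeights E w ∧
      (∀ x y z u, E x y → E y z → ¬ E z u) ∧
      ∀ w' : V → V → ℤ, PosWeights E (fun u v => (w' u v : ℝ)) →
        Preserving E w (fun u v => (w' u v : ℝ)) → ∃ u v, E u v ∧ 2 ^ K ≤ 2 * w' u v) ∧
    (∀ c : ℝ, ∃ (n : ℕ) (V : Type) (_ : Fintype V) (E : V → V → Prop) (w : V → V → ℝ),
      2 ≤ n ∧ Fintype.card V = n ∧ IsDAG E ∧ PosWeights E w ∧
      ∀ w' : V → V → ℤ, PosWeights E (fun u v => (w' u v : ℝ)) →
        Preserving E w (fun u v => (w' u v : ℝ)) → ∃ u v, E u v ∧ (n : ℝ) ^ c < w' u v) := by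
  have main : ∀ K : ℕ, ∃ (V : Type) (_ : Fintype V) (E : V → V → Prop) (w : V → V → ℝ),
      Fintype.card V = 11 * K + 14 ∧ IsDAG E ∧ PosWeights E w ∧
      (∀ x y z u, E x y → E y z → ¬ E z u) ∧
      ∀ w' : V → V → ℤ, PosWeights E (fun u v => (w' u v : ℝ)) →
        Preserving E w (fun u v => (w' u v : ℝ)) → ∃ u v, E u v ∧ 2 ^ K ≤ 2 * w' u v := by
    intro K
    refine ⟨Vtx (Src K) (Snk K), inferInstance, Edg (req K), wg K, ?_, isDAG _, pos_wg K, ?_, ?_⟩
    · simp
      ring
    · intro x y z u h1 h2 h3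
      have e1 := edg_ht h1
      have e2 := edg_ht h2
      have e3 := edg_ht h3
      have e4 : ht u ≤ 2 := by rcases u with q | q | q <;> simp [ht]
      omega
    · intro w' hpos hpres
      have hb := base hpres
      have h1 : (1 : ℝ) ≤ co (fun u v => (w' u v : ℝ)) (pt K 0 (by omega) 3) (col 0) -
          co (fun u v => (w' u v : ℝ)) (pt K 0 (by omega) 0) (col 0) := by
        simp only [co] at hb ⊢
        have h2 : (w' (Sum.inl (pt K 0 (by omega) 0)) (Sum.inr (Sum.inl 0)) -
            w' (Sum.inl (pt K 0 (by omega) 0)) (Sum.inr (Sum.inl (col 0))) : ℤ) <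
            w' (Sum.inl (pt K 0 (by omega) 3)) (Sum.inr (Sum.inl 0)) -
            w' (Sum.inl (pt K 0 (by omega) 3)) (Sum.inr (Sum.inl (col 0))) := by
          exact_mod_cast hb
        have h3 := Int.add_one_le_iff.2 h2
        have h4 : ((w' (Sum.inl (pt K 0 (by omega) 0)) (Sum.inr (Sum.inl 0)) -
            w' (Sum.inl (pt K 0 (by omega) 0)) (Sum.inr (Sum.inl (col 0))) + 1 : ℤ) : ℝ) ≤
            ((w' (Sum.inl (pt K 0 (by omega) 3)) (Sum.inr (Sum.inl 0)) -
            w' (Sum.inl (pt K 0 (by omega) 3)) (Sum.inr (Sum.inl (col 0))) : ℤ) : ℝ) := by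
          exact_mod_cast h3
        push_cast at h4
        linarith
      have h2 := gap hpres 1 h1 K (by omega)
      simp only [co] at h2
      have hp1 := hpos (Sum.inl (pt K K (by omega) 3)) (Sum.inr (Sum.inl (col K))) trivial
      have hp2 := hpos (Sum.inl (pt K K (by omega) 0)) (Sum.inr (Sum.inl 0)) trivial
      by_contra hcon
      push Not at hcon
      have h3 := hcon (Sum.inl (pt K K (by omega) 3)) (Sum.inr (Sum.inl 0)) trivial
      have h4 := hcon (Sum.inl (pt K K (by omega) 0)) (Sum.inr (Sum.inl (col K))) trivial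
      have h5 : (2 : ℝ) * (w' (Sum.inl (pt K K (by omega) 3)) (Sum.inr (Sum.inl 0)) : ℝ) <
          2 ^ K := by exact_mod_cast h3
      have h6 : (2 : ℝ) * (w' (Sum.inl (pt K K (by omega) 0)) (Sum.inr (Sum.inl (col K))) : ℝ) <
          2 ^ K := by exact_mod_cast h4
      simp only at hp1 hp2
      linarith
  refine ⟨main, ?_⟩
  intro c
  -- choose `K` with `(11 K + 14) ^ c < 2 ^ K / 2`
  obtain ⟨d, hd⟩ := exists_nat_ge c
  have hlim : Filter.Tendsto (fun K : ℕ => (K : ℝ) ^ d / 2 ^ K) Filter.atTop (nhds 0) := by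
    have := tendsto_pow_const_div_const_pow_of_one_lt d (r := (2 : ℝ)) (by norm_num)
    exact this
  have hev := hlim.eventually (gt_mem_nhds (show (0 : ℝ) < 1 / (2 * 25 ^ d) by positivity))
  obtain ⟨K, hK, hK1⟩ := (hev.and (Filter.eventually_ge_atTop 1)).exists
  obtain ⟨V, hV, E, w, hcard, hdag, hpos, -, hw⟩ := main K
  refine ⟨11 * K + 14, V, hV, E, w, by omega, hcard, hdag, hpos, ?_⟩
  intro w' hp' hpres
  obtain ⟨u, v, huv, h⟩ := hw w' hp' hpres
  refine ⟨u, v, huv, ?_⟩
  have h1 : (2 : ℝ) ^ K ≤ 2 * (w' u v : ℝ) := by exact_mod_cast h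
  have hK1' : (1 : ℝ) ≤ K := by exact_mod_cast hK1
  have h2 : ((11 * K + 14 : ℕ) : ℝ) ≤ 25 * K := by
    push_cast
    linarith
  have h3 : (1 : ℝ) ≤ ((11 * K + 14 : ℕ) : ℝ) := by
    push_cast
    linarith
  have h4 : ((11 * K + 14 : ℕ) : ℝ) ^ c ≤ (25 * (K : ℝ)) ^ d := by
    calc ((11 * K + 14 : ℕ) : ℝ) ^ c ≤ ((11 * K + 14 : ℕ) : ℝ) ^ (d : ℝ) :=
          Real.rpow_le_rpow_of_exponent_le h3 hd
      _ = ((11 * K + 14 : ℕ) : ℝ) ^ d := Real.rpow_natCast _ _
      _ ≤ (25 * (K : ℝ)) ^ d := pow_le_pow_left₀ (by linarith) h2 d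
  have h5 : (25 * (K : ℝ)) ^ d < 2 ^ K / 2 := by
    rw [mul_pow]
    rw [div_lt_div_iff₀ (by positivity) (by positivity)] at hK
    rw [lt_div_iff₀ (by norm_num)]
    linarith
  calc ((11 * K + 14 : ℕ) : ℝ) ^ c ≤ (25 * (K : ℝ)) ^ d := h4
    _ < 2 ^ K / 2 := h5
    _ ≤ w' u v := by linarith

end Pool.Agent.Results.MP_546b07_lc.IntegerWeights
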